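import Pool.Agent.U735.SO.Cls

/-!
# Package SPLIT: partial inverse of a morphism which is bijective on the cohomology
-/

set_option autoImplicit false
set_option linter.unusedSectionVars false
set_option linter.unusedSimpArgs false
set_option backward.isDefEq.respectTransparency false
set_option backward.defeqAttrib.useBackward true

open CategoryTheory Limits MonoidalCategory Pretriangulated Triangulated TensorProduct

namespace Pool.Agent.U876.SO

open Pool.Agent.Y116.MT Pool.Agent.V1178.MT Pool.Agent.U735.IL Pool.Agent.U735.SO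

universe v u w x

open Functor.LaxMonoidal

section

variable {C : Type u} [Category.{v} C] [Preadditive C] [HasZeroObject C] [HasShift C ℤ]
  [∀ n : ℤ, (shiftFunctor C n).Additive] [Pretriangulated C] [MonoidalCategory C]
  [SymmetricCategory C] [TensorTriangulated C] [MonoidalPreadditive C] [RightRigidCategory C]
  {E : Type w} [Field E]
  {Γ : Type x} [Group Γ] {R : Realisation C E} {a : GalAct Γ R}

/-- The functional. -/
noncomputable def lamM {X Y : C} (L : X ⟶ Y) : X ⊗ (Yᘁ : C) ⟶ 𝟙_ C :=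
  (L ▷ (Yᘁ : C)) ≫ (β_ Y (Yᘁ : C)).hom ≫ ε_ Y Yᘁ

lemma hm_lamM {X Y : C} (L : X ⟶ Y) (x : R.H.obj X) (y : R.H.obj Yᘁ) :
    hm R (lamM L) (ex R x y) = pr R y (hm R L x) • un R := by
  unfold lamM
  rw [hm_comp, hm_comp, hm_left, hm_braid, hm_ev]

/-- The form. -/
noncomputable def frm {X Y : C} (L : X ⟶ Y) :
    (X ⊗ (Yᘁ : C)) ⊗ (X ⊗ (Yᘁ : C)) ⟶ 𝟙_ C :=
  ((L ▷ (Yᘁ : C)) ⊗ₘ (L ▷ (Yᘁ : C))) ≫ (α_ Y (Yᘁ : C) (Y ⊗ (Yᘁ : C))).hom ≫
    (Y ◁ (α_ (Yᘁ : C) Y (Yᘁ : C)).inv) ≫ (Y ◁ (ε_ Y Yᘁ ▷ (Yᘁ : C))) ≫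
    (Y ◁ (λ_ (Yᘁ : C)).hom) ≫ (β_ Y (Yᘁ : C)).hom ≫ ε_ Y Yᘁ

lemma hm_frm {X Y : C} (L : X ⟶ Y) (x x' : R.H.obj X) (y y' : R.H.obj Yᘁ) :
    hm R (frm L) (ex R (ex R x y) (ex R x' y')) =
      (pr R y (hm R L x') * pr R y' (hm R L x)) • un R := by
  unfold frm
  rw [hm_comp, hm_comp, hm_comp, hm_comp, hm_comp, hm_comp, hm_tensor, hm_left, hm_left, hm_assoc,
    hm_right, hm_assoc_inv, hm_right, hm_left, hm_ev, ex_smul_left, ex_smul_right, map_smul,
    hm_right, hm_lam, map_smul, hm_braid, map_smul, hm_ev, smul_smul]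

/-- The bilinear form. -/
noncomputable def BB (R : Realisation C E) {X Y : C} (L : X ⟶ Y) :
    R.H.obj (X ⊗ (Yᘁ : C)) →ₗ[E] R.H.obj (X ⊗ (Yᘁ : C)) →ₗ[E] E :=
  LinearMap.mk₂ E (fun z z' => sc R (hm R (frm L) (ex R z z')))
    (fun x y z => by simp only [ex_add_left, map_add])
    (fun c x y => by simp only [ex_smul_left, map_smul])
    (fun x y z => by simp only [ex_add_right, map_add])
    (fun c x y => by simp only [ex_smul_right, map_smul])

lemma BB_apply {X Y : C} (L : X ⟶ Y) (z z' : R.H.obj (X ⊗ (Yᘁ : C))) :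
    BB R L z z' = sc R (hm R (frm L) (ex R z z')) := rfl

lemma BB_ex {X Y : C} (L : X ⟶ Y) (x x' : R.H.obj X) (y y' : R.H.obj Yᘁ) :
    BB R L (ex R x y) (ex R x' y') = pr R y (hm R L x') * pr R y' (hm R L x) := by
  rw [BB_apply, hm_frm, map_smul, sc_un, smul_eq_mul, mul_one]

lemma pr_smul_right {X : C} (y : R.H.obj Xᘁ) (c : E) (x : R.H.obj X) :
    pr R y (c • x) = c * pr R y x := by
  rw [← prB_apply, map_smul, prB_apply, smul_eq_mul]

lemma BB_right (hD : DualityCompatible R) {X Y : C} (L : X ⟶ Y) (hX : Nn R X) (hY : Np R Y)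
    (z : R.H.obj (X ⊗ (Yᘁ : C))) (x' : R.H.obj X) (y' : R.H.obj Yᘁ) :
    BB R L z (ex R x' y') = pr R y' (hm R L (con R X Y z (hm R L x'))) := by
  have h : (BB R L).flip (ex R x' y') =
      (prB R Y y') ∘ₗ (hm R L) ∘ₗ ((LinearMap.applyₗ (hm R L x')) ∘ₗ (conB R X Y)) := by
    refine ext_ex hX (nn_dual hD hY) fun x y => ?_
    rw [LinearMap.flip_apply, BB_ex]
    simp only [LinearMap.comp_apply, LinearMap.applyₗ_apply_apply, conB_apply, con_ex, map_smul,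
      prB_apply, smul_eq_mul]
  exact LinearMap.congr_fun h z

lemma BB_left (hD : DualityCompatible R) {X Y : C} (L : X ⟶ Y) (hX : Nn R X) (hY : Np R Y)
    (z' : R.H.obj (X ⊗ (Yᘁ : C))) (x : R.H.obj X) (y : R.H.obj Yᘁ) :
    BB R L (ex R x y) z' = pr R y (hm R L (con R X Y z' (hm R L x))) := by
  have h : (BB R L) (ex R x y) =
      (prB R Y y) ∘ₗ (hm R L) ∘ₗ ((LinearMap.applyₗ (hm R L x)) ∘ₗ (conB R X Y)) := by
    refine ext_ex hX (nn_dual hD hY) fun x' y' => ?_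
    rw [BB_ex]
    simp only [LinearMap.comp_apply, LinearMap.applyₗ_apply_apply, conB_apply, con_ex, map_smul,
      prB_apply, smul_eq_mul]
    ring
  exact LinearMap.congr_fun h z'

lemma con_zero_of {X Y : C} (hD : DualityCompatible R) (L : X ⟶ Y) (hX : Nn R X) (hY : Np R Y)
    (hb : Function.Bijective (hm R L)) (z : R.H.obj (X ⊗ (Yᘁ : C)))
    (h : ∀ (x' : R.H.obj X) (y' : R.H.obj Yᘁ),
      pr R y' (hm R L (con R X Y z (hm R L x'))) = 0) : z = 0 := by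
  apply con_inj hD hX hY
  ext v
  obtain ⟨x', rfl⟩ := hb.2 v
  have h1 : hm R L (con R X Y z (hm R L x')) = 0 := pr_nondeg_left hD _ fun y' => h x' y'
  rw [LinearMap.zero_apply]
  exact hb.1 (by rw [h1, map_zero])

theorem t_SPLIT (hF : S_FAITH R) (hK : S_KEY a) (hPerf : S_PERF.{x, w})
    (hD : DualityCompatible R) : S_SPLIT a := by
  intro X Y L hX hY hb hss
  have hZ : Nn R (X ⊗ (Yᘁ : C)) := fun i hi => tensor_vanish_neg hX (nn_dual hD hY) hi
  have hnl : ∀ z, (∀ z', BB R L z z' = 0) → z = 0 := fun z hz =>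
    con_zero_of hD L hX hY hb z fun x' y' => by rw [← BB_right hD L hX hY, hz]
  have hnr : ∀ z', (∀ z, BB R L z z' = 0) → z' = 0 := fun z' hz =>
    con_zero_of hD L hX hY hb z' fun x y => by rw [← BB_left hD L hX hY, hz]
  have hinv : ∀ (g : Γ) z z', BB R L (a.ap g _ z) (a.ap g _ z') = BB R L z z' := by
    intro g z z'
    rw [BB_apply, ← ap_ex, ← ap_hm, ap_one, ← BB_apply]
  obtain ⟨hp1, hp2⟩ := hPerf E Γ (R.H.obj (X ⊗ (Yᘁ : C))) (R.H.obj (X ⊗ (Yᘁ : C)))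
    (fun g => a.ap g _) (fun g => a.ap g _) (BB R L) (fun g => ap_surjective g _) hss hinv hnl hnr
  obtain ⟨s, hs⟩ := hK (X ⊗ (Yᘁ : C)) (X ⊗ (Yᘁ : C)) (frm L) hZ hZ
    (fun z hz h => hp1 z hz fun z' hz' => by rw [BB_apply, h z' hz', map_zero])
    (fun z' hz' h => hp2 z' hz' fun z hz => by rw [BB_apply, h z hz, map_zero]) (lamM L)
  -- the inverse map
  let e : R.H.obj X ≃ₗ[E] R.H.obj Y := LinearEquiv.ofBijective (hm R L) hb
  have he : ∀ x, e x = hm R L x := fun x => rfl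
  obtain ⟨zL, hzL⟩ := con_surj hD (M := X) (S := Y) (e.symm : R.H.obj Y →ₗ[E] R.H.obj X)
  have hL1 : ∀ x, con R X Y zL (hm R L x) = x := fun x => by
    rw [hzL, ← he]
    exact e.symm_apply_apply x
  have hL2 : ∀ y, hm R L (con R X Y zL y) = y := fun y => by
    rw [hzL, ← he]
    exact e.apply_symm_apply y
  have hBL : ∀ z, BB R L z zL = sc R (hm R (lamM L) z) := by
    have h : (BB R L).flip zL = (sc R) ∘ₗ (hm R (lamM L)) := by
      refine ext_ex hX (nn_dual hD hY) fun x y => ?_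
      rw [LinearMap.flip_apply, BB_left hD L hX hY, hL1, LinearMap.comp_apply, hm_lamM, map_smul,
        sc_un, smul_eq_mul, mul_one]
    exact fun z => LinearMap.congr_fun h z
  have hzI : Ivt a _ zL := by
    apply ivt_of_eqv hD hX hY
    intro g v
    apply hb.1
    rw [hL2, ← ap_hm, hL2]
  have hsI : Ivt a _ (hm R s (un R)) := fun g => by rw [ap_hm, ap_un]
  have hsL : hm R s (un R) = zL := by
    rw [← sub_eq_zero]
    refine hp2 _ (fun g => ?_) fun z hz => ?_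
    · rw [map_sub]
      exact congrArg₂ _ (hsI g) (hzI g)
    · rw [map_sub, hBL z, BB_apply, hs z hz, sub_self]
  -- the morphism
  let ψ : Y ⟶ X := (λ_ Y).inv ≫ (s ▷ Y) ≫ (α_ X (Yᘁ : C) Y).hom ≫ (X ◁ ε_ Y Yᘁ) ≫ (ρ_ X).hom
  have hψ : ∀ y, hm R ψ y = con R X Y zL y := by
    intro y
    change hm R ((λ_ Y).inv ≫ (s ▷ Y) ≫ (α_ X (Yᘁ : C) Y).hom ≫ (X ◁ ε_ Y Yᘁ) ≫ (ρ_ X).hom) y = _
    rw [hm_comp, hm_lam_inv, hm_comp, hm_left, hsL]
    rfl
  refine ⟨ψ, fun x => by rw [hψ, hL1], ?_⟩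
  rw [← sub_eq_zero]
  refine hF Y X _ hY hX fun y => ?_
  rw [hm_sub, hm_comp, hm_comp, hψ, hψ, hL2, sub_self]

end

end Pool.Agent.U876.SO
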